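import Pool.Agent.ELG.HcE

/-!
Closed groups V of sign patterns on the primes: either almost every element of every coset u V has
the Bernoulli shift among its Furstenberg systems, along a sequence depending only on V, or the
Bernoulli property of u v depends only on the restriction of v to a finite set of primes.
-/

open Filter Topology MeasureTheory ELG Pool.Agent.Helper50.FS

namespace Pool.Agent.Results.MP_a4fdfa_an.CompactGroups

theorem result (V : Subgroup (Nat.Primes → ℤˣ)) (hV : IsClosed (V : Set (Nat.Primes → ℤˣ)))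
    (μ : Measure V) [μ.IsHaarMeasure] [IsProbabilityMeasure μ] :
    ((∀ S : Finset Nat.Primes, ¬ Summable fun p : Sup V S => 1 / ((p : ℕ) : ℝ)) →
      ∃ N : ℕ → ℕ, Tendsto N atTop atTop ∧
        ∀ u : ℕ → ℤˣ, ∀ᵐ v : V ∂μ,
          (IsMult u → IsMult fun n => u n * cmf (v : Nat.Primes → ℤˣ) n) ∧
            BernAlong (fun n => u n * cmf (v : Nat.Primes → ℤˣ) n) (map N atTop)) ∧
    (∀ S : Finset Nat.Primes, Summable (fun p : Sup V S => 1 / ((p : ℕ) : ℝ)) →
      (∀ u w : ℕ → ℤˣ, IsMult u → IsMult w → (∀ p : ℕ, p.Prime → p ∉ Sup V S → u p = w p) →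
        ∀ l : Filter ℕ, l ≤ atTop → (BernAlong u l ↔ BernAlong w l)) ∧
      (∀ u : ℕ → ℤˣ, IsMult u → ∀ v ∈ V, ∀ v' ∈ V, (∀ q ∈ S, v q = v' q) →
        ∀ l : Filter ℕ, l ≤ atTop →
          (BernAlong (fun n => u n * cmf v n) l ↔ BernAlong (fun n => u n * cmf v' n) l))) := by
  refine ⟨fun h => ?_, fun S hS => ⟨fun u w hu hw huw l hl => closed_same hS hu hw huw hl, ?_⟩⟩
  · obtain ⟨N, hN, hall⟩ := closed_along hV μ h
    refine ⟨N, hN, fun u => ?_⟩
    filter_upwards [hall u] with v hv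
    exact ⟨fun hu => isMult_mul hu (cmf_cm _), hv⟩
  · intro u hu v hv v' hv' hvv l hl
    refine closed_same hS (isMult_mul hu (cmf_cm v)) (isMult_mul hu (cmf_cm v')) ?_ hl
    intro p hp hpS
    have h1 : cmf v p = v ⟨p, hp⟩ := cmf_prime v ⟨p, hp⟩
    have h2 : cmf v' p = v' ⟨p, hp⟩ := cmf_prime v' ⟨p, hp⟩
    show u p * cmf v p = u p * cmf v' p
    rw [h1, h2]
    congr 1
    by_contra hne
    apply hpS
    refine ⟨hp, v * v', V.mul_mem hv hv', fun q hq => ?_, ?_⟩
    · show v q * v' q = 1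
      rw [hvv q hq]
      rcases Int.units_eq_one_or (v' q) with h | h <;> rw [h] <;> decide
    · show v ⟨p, hp⟩ * v' ⟨p, hp⟩ = -1
      rcases Int.units_eq_one_or (v ⟨p, hp⟩) with h | h <;> rcases Int.units_eq_one_or (v' ⟨p, hp⟩) with h' | h' <;>
        rw [h, h'] at hne ⊢ <;> first | exact absurd rfl hne | decide

end Pool.Agent.Results.MP_a4fdfa_an.CompactGroups
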