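import Pool.Agent.EXD.Main

/-!
# MP_a4fdfa_an: the exceptional set of sign changes has Hausdorff dimension less than one
-/

open Filter Topology MeasureTheory

namespace Pool.Agent.Results.MP_a4fdfa_an.ExceptionalDimension

open Pool.Agent.EXD
open Pool.Agent.Helper50.FS (IsMult X logAvg bern IsBern sg)

theorem result :
    dimH (Set.univ : Set Sgn) = 1 ∧
    ∀ P : Set ℕ, RelDense P →
      (∀ (k : ℕ) (ε : ℝ), 0 < k → 0 < ε → ∃ s : ENNReal, s < 1 ∧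
        ∀ (A : Finset ℕ) (w : ℕ → ℝ), A.card = k → (∀ n, |w n| ≤ 1) →
          dimH {r : Sgn | ∃ᶠ N : ℕ in atTop,
            ε * N ≤ |∑ n ∈ Finset.Icc 1 N, w n * ∏ a ∈ A, sg (cm P r (n + a))|} ≤ s) ∧
      (∀ (f : C(X, ℝ)) (ε : ℝ), 0 < ε → ∃ s : ENNReal, s < 1 ∧ ∀ u : ℕ → ℤˣ, IsMult u →
        dimH {r : Sgn | ∃ᶠ N : ℕ in atTop, ε ≤ |logAvg (tw P u r) f N - ∫ x, f x ∂bern|} ≤ s) ∧
      (∀ u : ℕ → ℤˣ, IsMult u →
        (∀ r : ℕ → ℤˣ, IsMult (tw P u r)) ∧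
        (∃ E : ℕ → Set Sgn, (∀ i, dimH (E i) < 1) ∧ {r : Sgn | ¬ IsBern (tw P u r)} ⊆ ⋃ i, E i) ∧
        ∀ μ : Measure (ℕ → ℤˣ), IsProbabilityMeasure μ → HighEnt μ →
          ∀ᵐ r ∂μ, IsBern (tw P u r)) := by
  refine ⟨dimH_Sgn, fun P hP => ⟨fun k ε hk hε => main_dim P hP k ε hk hε, fun f ε hε => ?_,
    fun u hu => ⟨fun r => isMult_tw P u hu r, main_union P hP u, fun μ hμ hent => ?_⟩⟩⟩
  · obtain ⟨s, hs, h⟩ := main_fun P hP f ε hε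
    exact ⟨s, hs, fun u _ => h u⟩
  · exact main_meas P hP μ hent u

end Pool.Agent.Results.MP_a4fdfa_an.ExceptionalDimension
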