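import Pool.Agent.ELG.FinP

/-!
Elliott's conjecture on average over finite groups of completely multiplicative functions with
values in {-1,1}, for correlations of every order, with a power saving in the size of the group.
-/

open ELG Finset

namespace Pool.Agent.Results.MP_a4fdfa_an.GroupElliott

theorem result (k : ℕ) (hk : 1 ≤ k) :
    ∃ γ : ℝ, 0 < γ ∧ γ ≤ 1 ∧
      ∀ h : ℕ → ℕ, (∀ i < k, ∀ j < k, h i = h j → i = j) →
        ∃ C : ℝ, 0 < C ∧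
          ∀ Γ : Finset (ℕ → ℤˣ), Γ.Nonempty → (∀ u ∈ Γ, IsCM u) → (∀ u ∈ Γ, ∀ v ∈ Γ, u * v ∈ Γ) →
            ∃ N₀ : ℕ, ∀ N ≥ N₀, ∀ w : ℕ → ℝ, (∀ n, |w n| ≤ 1) →
              (∑ u ∈ Γ, la N (fun n => w n * ∏ i ∈ range k, (((u (n + h i) : ℤˣ) : ℤ) : ℝ)) ^ 2) / Γ.card ≤
                C * ((Nat.card {u : ℕ → ℤˣ // u ∈ Γ ∧ FinMass u} : ℝ) / Γ.card) ^ γ :=
  finalP k hk

end Pool.Agent.Results.MP_a4fdfa_an.GroupElliott
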