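import Pool.Agent.Helper50.FS.Main

/-!
Random sign changes on an arbitrarily sparse (but not too sparse) set of primes turn every
multiplicative function with values in {-1,1} into one whose unique Furstenberg system is the
Bernoulli shift.
-/

open Filter Topology MeasureTheory Asymptotics

namespace Pool.Agent.Results.MP_a4fdfa_an.SparseSignChanges

open Pool.Agent.Helper50.FS

theorem result :
    (∀ P : Set ℕ, Tame P → ∀ u : ℕ → ℤˣ, IsMult u →
      ∀ᵐ r ∂signs, IsMult (twist P u r) ∧ IsBern (twist P u r)) ∧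
    (∃ P : Set ℕ, Tame P ∧
      ∀ m : ℕ, (fun N : ℕ => mass (upTo P N)) =o[atTop] (fun N : ℕ => Real.log^[m] (N : ℝ))) := by
  refine ⟨fun P hP u hu => ?_, main.2.2.2.2⟩
  filter_upwards [main.2.2.2.1 P hP u] with r hr
  exact ⟨main.1 P u r hu, hr⟩

end Pool.Agent.Results.MP_a4fdfa_an.SparseSignChanges
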